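import Pool.Agent.V1187.NBox4

/-!
# The Neumann monotonicity constant does not tend to one

In dimension three, the cylinder of length `k` over a thin rectangle, which is placed along the diagonal
of the unit square, has more small Neumann eigenvalues than the cylinder of length `k` over the square.
-/

set_option autoImplicit false

open MeasureTheory Set Filter Topology

namespace Pool.Agent.Results.MP_382727_an.NotTendsToOne

open Pool.Agent.V1187.NB

/-- In dimension `3`, the constant `α_{k,3}` is at most `19/20` for every positive multiple `k` of `4`;
in particular it does not tend to `1` as `k → ∞`. -/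
theorem result : (∀ m : ℕ, 0 < m → alpha (4 * m) 3 ≤ ENNReal.ofReal (19 / 20)) ∧
    ¬ Tendsto (fun k => alpha k 3) atTop (𝓝 1) :=
  ⟨fun _ hm => alpha_le hm, not_tendsto⟩

end Pool.Agent.Results.MP_382727_an.NotTendsToOne
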